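import Pool.Agent.H70.RG.Targets

set_option autoImplicit false

namespace Pool.Agent.H38.RG

open MeasureTheory Metric Set Filter Topology Pool.Agent.H87.SN Pool.Agent.H70.RG
open scoped ContDiff

theorem pf_HLO : T_HLO := by
  intro n F _ _ j
  induction j with
  | zero =>
    refine ⟨?_, ?_, ?_, ?_⟩
    · intro v U W hW hWU h x hx
      obtain ⟨r, C, γ, hr, hC, hγ, hγ1, hb, h'⟩ := h x (hWU hx)
      obtain ⟨r', hr', hb'⟩ := Metric.isOpen_iff.mp hW x hx
      exact ⟨min r r', C, γ, lt_min hr hr', hC, hγ, hγ1,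
        (ball_subset_ball (min_le_right _ _)).trans hb', fun y hy z hz =>
        h' y (ball_subset_ball (min_le_left _ _) hy) z (ball_subset_ball (min_le_left _ _) hz)⟩
    · intro v w U _ hvw h x hx
      obtain ⟨r, C, γ, hr, hC, hγ, hγ1, hb, h'⟩ := h x hx
      refine ⟨r, C, γ, hr, hC, hγ, hγ1, hb, fun y hy z hz => ?_⟩
      rw [← hvw y (hb hy), ← hvw z (hb hz)]
      exact h' y hy z hz
    · intro v U h x hx
      obtain ⟨r, hr, hb, h'⟩ := h x hx
      obtain ⟨r', C, γ, hr', hC, hγ, hγ1, hb', h''⟩ := h' x (mem_ball_self hr)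
      exact ⟨r', C, γ, hr', hC, hγ, hγ1, hb'.trans hb, h''⟩
    · intro v x r γ C hγ hγ1 h y hy
      have h1 : 0 < r - dist y x := by
        have := mem_ball.mp hy
        linarith
      have h2 : ball y (r - dist y x) ⊆ ball x r := ball_subset_ball' (by linarith)
      exact ⟨r - dist y x, C, γ, h1, (norm_nonneg _).trans (h.1 y hy), hγ, hγ1, h2,
        fun a ha b hb => h.2 a (h2 ha) b (h2 hb)⟩
  | succ j ih =>
    refine ⟨?_, ?_, ?_, ?_⟩
    · intro v U W hW hWU h
      exact ⟨fun x hx => h.1 x (hWU hx), fun i => ih.1 _ U W hW hWU (h.2 i)⟩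
    · intro v w U hU hvw h
      have h1 : ∀ x ∈ U, v =ᶠ[𝓝 x] w := fun x hx =>
        Filter.eventuallyEq_of_mem (hU.mem_nhds hx) hvw
      refine ⟨fun x hx => (h.1 x hx).congr_of_eventuallyEq (h1 x hx).symm, fun i => ?_⟩
      exact ih.2.1 _ _ U hU (fun x hx => by rw [(h1 x hx).fderiv_eq]) (h.2 i)
    · intro v U h
      refine ⟨fun x hx => ?_, fun i => ih.2.2.1 _ U fun x hx => ?_⟩
      · obtain ⟨r, hr, _, h'⟩ := h x hx
        exact h'.1 x (mem_ball_self hr)
      · obtain ⟨r, hr, hb, h'⟩ := h x hx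
        exact ⟨r, hr, hb, h'.2 i⟩
    · intro v x r γ C hγ hγ1 h
      exact ⟨fun y hy => (h.1 y hy).2, fun i => ih.2.2.2 _ x r γ C hγ hγ1 (h.2 i)⟩

end Pool.Agent.H38.RG
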