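import Pool.Agent.H70.RG.Targets

set_option autoImplicit false

namespace Pool.Agent.H38.RG

open MeasureTheory Metric Set Filter Topology Pool.Agent.H87.SN Pool.Agent.H70.RG
open scoped ContDiff

theorem smooth_D {n : ℕ} {ψ : E n → ℝ} (h : ContDiff ℝ ∞ ψ) (a : E n) :
    ContDiff ℝ ∞ fun x => fderiv ℝ ψ x a :=
  (h.fderiv_right (by simp)).clm_apply contDiff_const

theorem D_comm {n : ℕ} {ψ : E n → ℝ} (h : ContDiff ℝ ∞ ψ) (a b : E n) :
    (fun x => fderiv ℝ (fun y => fderiv ℝ ψ y b) x a) =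
      fun x => fderiv ℝ (fun y => fderiv ℝ ψ y a) x b := by
  funext x
  have h1 : ContDiff ℝ ∞ (fderiv ℝ ψ) := h.fderiv_right (by simp)
  have h2 : DifferentiableAt ℝ (fderiv ℝ ψ) x := (h1.differentiable (by simp)) x
  have h3 : ∀ c : E n, ∀ d : E n, fderiv ℝ (fun y => fderiv ℝ ψ y c) x d =
      fderiv ℝ (fderiv ℝ ψ) x d c := by
    intro c d
    rw [fderiv_clm_apply h2 (differentiableAt_const c)]
    simp
  rw [h3, h3]
  have h4 : IsSymmSndFDerivAt ℝ ψ x := (h.contDiffAt).isSymmSndFDerivAt (by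
    simp only [minSmoothness_of_isRCLikeNormedField]
    exact WithTop.coe_le_coe.mpr (OrderTop.le_top _))
  exact h4 a b

theorem TF_D {n : ℕ} {U : Set (E n)} {ψ : E n → ℝ} (h : TF U ψ) (a : E n) :
    TF U fun x => fderiv ℝ ψ x a :=
  ⟨smooth_D h.1 a, h.2.1.fderiv_apply (𝕜 := ℝ) a,
    (tsupport_fderiv_apply_subset ℝ a).trans h.2.2⟩

theorem zero_off {n : ℕ} {ψ : E n → ℝ} (a : E n) {x : E n} (hx : x ∉ tsupport ψ) :
    fderiv ℝ ψ x a = 0 := by
  have h1 : x ∉ tsupport fun y => fderiv ℝ ψ y a :=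
    fun h => hx (tsupport_fderiv_apply_subset ℝ a h)
  exact image_eq_zero_of_notMem_tsupport (f := fun y => fderiv ℝ ψ y a) h1

theorem lp_smooth {n : ℕ} {ψ : E n → ℝ} (h : ContDiff ℝ ∞ ψ) : ContDiff ℝ ∞ (lp ψ) := by
  unfold Pool.Agent.H70.RG.lp
  exact ContDiff.sum fun i _ => smooth_D (smooth_D h _) _

theorem TF_lp {n : ℕ} {U : Set (E n)} {ψ : E n → ℝ} (h : TF U ψ) : TF U (lp ψ) := by
  have h1 : Function.support (lp ψ) ⊆ tsupport ψ := by
    intro x hx
    by_contra hn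
    apply hx
    unfold Pool.Agent.H70.RG.lp
    refine Finset.sum_eq_zero fun i _ => zero_off _ fun h2 => hn ?_
    exact tsupport_fderiv_apply_subset ℝ _ h2
  refine ⟨lp_smooth h.1, h.2.1.mono' h1, ?_⟩
  exact (closure_minimal h1 (isClosed_tsupport ψ)).trans h.2.2

theorem cont_mul {n : ℕ} {F : Type} [NormedAddCommGroup F] [NormedSpace ℝ F] {U : Set (E n)}
    (hU : IsOpen U) {ψ : E n → ℝ} {w : E n → F} (hψ : Continuous ψ) (hs : tsupport ψ ⊆ U)
    (hw : ContinuousOn w U) : Continuous fun x => ψ x • w x := by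
  rw [continuous_iff_continuousAt]
  intro x
  by_cases hx : x ∈ tsupport ψ
  · exact hψ.continuousAt.smul (hw.continuousAt (hU.mem_nhds (hs hx)))
  · have h1 : (fun y => ψ y • w y) =ᶠ[𝓝 x] fun _ => (0 : F) := by
      filter_upwards [notMem_tsupport_iff_eventuallyEq.mp hx] with y hy
      rw [hy]
      simp
    exact continuousAt_const.congr h1.symm

theorem int_mul {n : ℕ} {F : Type} [NormedAddCommGroup F] [NormedSpace ℝ F] {U : Set (E n)}
    (hU : IsOpen U) {ψ : E n → ℝ} {w : E n → F} (hψ : TF U ψ)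
    (hw : ContinuousOn w U) : Integrable fun x => ψ x • w x :=
  (cont_mul hU hψ.1.continuous hψ.2.2 hw).integrable_of_hasCompactSupport hψ.2.1.smul_right

theorem pf_IBP : T_IBP := by
  intro n F _ _ _ U v e hU hv hve ψ hψ
  refine ⟨TF_D hψ e, ?_, TF_lp hψ, ?_⟩
  · intro x
    have h1 : ∀ i : Fin n, fderiv ℝ (fun y => fderiv ℝ (fun z => fderiv ℝ ψ z e) y (bv i)) x
        (bv i) = fderiv ℝ (fun y => fderiv ℝ (fun z => fderiv ℝ ψ z (bv i)) y (bv i)) x e := by
      intro i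
      rw [D_comm hψ.1 (bv i) e]
      exact congrFun (D_comm (smooth_D hψ.1 (bv i)) (bv i) e) x
    have h2 : fderiv ℝ (lp ψ) x e =
        ∑ i : Fin n, fderiv ℝ (fun y => fderiv ℝ (fun z => fderiv ℝ ψ z (bv i)) y (bv i)) x e := by
      have h3 : fderiv ℝ (lp ψ) x = ∑ i : Fin n,
          fderiv ℝ (fun y => fderiv ℝ (fun z => fderiv ℝ ψ z (bv i)) y (bv i)) x := by
        unfold Pool.Agent.H70.RG.lp
        exact fderiv_fun_sum fun i _ =>
          ((smooth_D (smooth_D hψ.1 (bv i)) (bv i)).differentiable (by simp)) x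
      rw [h3, sum_apply]
    rw [h2]
    exact Finset.sum_congr rfl fun i _ => h1 i
  · have hvc : ContinuousOn v U := fun x hx => (hv x hx).continuousAt.continuousWithinAt
    have i1 : Integrable fun x => fderiv ℝ ψ x e • v x := int_mul hU (TF_D hψ e) hvc
    have i2 : Integrable fun x => ψ x • fderiv ℝ v x e := int_mul hU hψ hve
    have i3 : Integrable fun x => ψ x • v x := int_mul hU hψ hvc
    have key := integral_bilinear_hasLineDerivAt_right_eq_neg_left_of_integrable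
      (μ := (volume : Measure (E n))) (B := ContinuousLinearMap.lsmul ℝ ℝ)
      (f := ψ) (f' := fun x => fderiv ℝ ψ x e) (g := v)
      (g' := fun x => fderiv ℝ v x e) (v := e) i1 i2 i3
      (fun x _ => (((hψ.1.differentiable (by simp)) x).hasFDerivAt).hasLineDerivAt e)
      (fun x hx => ((hv x (hψ.2.2 hx)).hasFDerivAt).hasLineDerivAt e)
    simp only [ContinuousLinearMap.lsmul_apply] at key
    rw [key, neg_neg]

end Pool.Agent.H38.RG
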